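import Mathlib
import Pool.Agent.H10.MaxSumDefs
import Pool.Agent.H10.MaxSum

set_option autoImplicit false

namespace Pool.Agent.Results.MP_70625d_co.NoBall

open Pool.Agent.H10.MaxSum in
/-- For every `d ≥ 3` there are six points of Euclidean `d`-space and a max-sum matching of them
whose closed diametral balls have exactly one common point. -/
theorem result (d : ℕ) (hd : 3 ≤ d) :
    ∃ (X : Finset (EuclideanSpace ℝ (Fin d)))
      (σ : EuclideanSpace ℝ (Fin d) → EuclideanSpace ℝ (Fin d)),
      X.card = 6 ∧ IsMaxSumMatching X σ ∧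
      ⋂ x ∈ X, Metric.closedBall (midpoint ℝ x (σ x)) (dist x (σ x) / 2) = {0} :=
  main (e := fun k => EuclideanSpace.basisFun (Fin d) ℝ (Fin.castLE hd k))
    ((EuclideanSpace.basisFun (Fin d) ℝ).orthonormal.comp _ (Fin.castLE_injective hd))

end Pool.Agent.Results.MP_70625d_co.NoBall
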